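import Pool.Agent.Helper37.KDB.Extra
import Pool.Agent.Helper37.KDB.St.D1

/-! Project KDB, piece D2: sizes of the jumps and noise bounds. -/

set_option autoImplicit false

namespace KDB.I.D2

open MeasureTheory KDB
open scoped ENNReal

variable (p : Par)

private lemma ell_ge (hp : p.Ok) : (1000 : ℝ) ≤ p.ell := by
  have h1 : (1000 : ℝ) ≤ (p.L : ℝ) := by exact_mod_cast hp.hL
  have h2 : (p.L : ℝ) ≤ (p.L : ℝ) ^ p.q :=
    le_self_pow₀ (by linarith) (by have := hp.hq; omega)
  have h3 : (p.ell : ℝ) = (p.L : ℝ) ^ p.q := by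
    unfold Par.ell
    push_cast
    rfl
  rw [h3]
  linarith

private lemma h_nonneg : 0 ≤ p.h := by
  unfold Par.h
  positivity

private lemma rho_nonneg (k : ℕ) : 0 ≤ p.rho k := by
  unfold Par.rho
  positivity

private lemma sz_nonneg (z : Nz p.d) : 0 ≤ p.sz z := by
  unfold Par.sz
  split_ifs
  · exact le_rfl
  · exact norm_nonneg _
  · exact mul_nonneg (Nat.cast_nonneg _) (rho_nonneg p _)

private lemma abs_sub_mul_round {c : ℝ} (hc : 0 < c) (x : ℝ) :
    |c * (round (x / c) : ℝ) - x| ≤ c / 2 := by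
  have h1 := abs_sub_round (x / c)
  have h2 : c * (round (x / c) : ℝ) - x = -(c * (x / c - round (x / c))) := by
    field_simp
    ring
  rw [h2, abs_neg, abs_mul, abs_of_pos hc]
  nlinarith

private lemma abs_round_le (y : ℝ) : |(round y : ℝ)| ≤ |y| + 1 / 2 := by
  have h1 := abs_sub_round y
  have h2 : |(round y : ℝ)| ≤ |y| + |y - round y| := by
    have := abs_sub y (y - round y)
    rwa [sub_sub_cancel] at this
  linarith

private lemma round_err {c C : ℝ} (hc : 0 < c) (hC : 0 < C) (x : ℝ) :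
    |(round ((C * (round (x / C) : ℝ) - x) / c) : ℝ)| ≤ (C / 2) / c + 1 / 2 := by
  refine (abs_round_le _).trans ?_
  have h1 := abs_sub_mul_round hC x
  rw [abs_div, abs_of_pos hc]
  have := div_le_div_of_nonneg_right h1 hc.le
  linarith

private lemma rad_le (hp : p.Ok) (k : ℕ) : p.rad k ≤ p.rho k := by
  unfold Par.rad Par.rho
  have h1 : (1 : ℝ) ≤ p.ell := by linarith [ell_ge p hp]
  rw [← zpow_natCast]
  exact zpow_le_zpow_right₀ h1 (by omega)

private lemma wst_le (hp : p.Ok) (k j : ℕ) (x v : V p.d) :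
    ‖p.wst k j x v‖ ≤ p.rho k * (1000 / 999 * ((p.ell * p.L + 1) / 2)) := by
  have hell := ell_ge p hp
  have hL : (1000 : ℝ) ≤ (p.L : ℝ) := by exact_mod_cast hp.hL
  have hrho : 0 < p.rho k := by
    unfold Par.rho
    positivity
  have hxi : 0 < p.xi k := by
    unfold Par.xi
    positivity
  have hxi1 : 0 < p.xi (k + 1) := by
    unfold Par.xi
    positivity
  have hrho1 : 0 < p.rho (k + 1) := by
    unfold Par.rho
    positivity
  have hB : (0 : ℝ) ≤ p.rho k * (1000 / 999 * ((p.ell * p.L + 1) / 2)) := by positivity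
  rw [pi_norm_le_iff_of_nonneg hB]
  intro i
  rw [Real.norm_eq_abs]
  unfold Par.wst
  split_ifs with hA
  · have hh := (hrem_bounds p hp k j hA).1
    have hLk : (0 : ℝ) < (p.L : ℝ) ^ k := by positivity
    have hinv : (1 : ℝ) / p.ell ≤ 1 / 1000 := one_div_le_one_div_of_le (by norm_num) hell
    have hh' : (p.L : ℝ) ^ k * (999 / 1000) ≤ p.hrem k j := by
      refine le_trans ?_ hh
      apply mul_le_mul_of_nonneg_left _ hLk.le
      linarith
    have hhpos : 0 < p.hrem k j := lt_of_lt_of_le (by positivity) hh'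
    have hrm : |((p.rm k j x v i : ℤ) : ℝ)| ≤ (p.ell * p.L + 1) / 2 := by
      unfold Par.rm Par.rA
      rw [if_pos hA, if_pos hA]
      have h1 := round_err hxi hxi1 ((x + p.hrem k j • v) i)
      have h2 : p.xi (k + 1) / 2 / p.xi k + 1 / 2 = (p.ell * p.L + 1) / 2 := by
        unfold Par.xi
        rw [pow_succ]
        have : ((p.ell : ℝ) * p.L) ^ k ≠ 0 := by positivity
        field_simp
      rw [h2] at h1
      exact h1
    have hq : p.xi k / p.hrem k j ≤ p.rho k * (1000 / 999) := by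
      rw [div_le_iff₀ hhpos, xi_eq p k]
      have : p.rho k * (p.L : ℝ) ^ k = p.rho k * (1000 / 999) * ((p.L : ℝ) ^ k * (999 / 1000)) := by
        ring
      rw [this]
      exact mul_le_mul_of_nonneg_left hh' (by positivity)
    show |(p.xi k / p.hrem k j) * ((p.rm k j x v i : ℤ) : ℝ)| ≤ _
    rw [abs_mul, abs_of_nonneg (by positivity : 0 ≤ p.xi k / p.hrem k j)]
    calc p.xi k / p.hrem k j * |((p.rm k j x v i : ℤ) : ℝ)|
        ≤ (p.rho k * (1000 / 999)) * ((p.ell * p.L + 1) / 2) := by
          apply mul_le_mul hq hrm (abs_nonneg _) (by positivity)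
      _ = _ := by ring
  · have hrm : |((p.rm k j x v i : ℤ) : ℝ)| ≤ (p.ell + 1) / 2 := by
      unfold Par.rm Par.rA
      rw [if_neg hA, if_neg hA]
      have h1 := round_err hrho hrho1 (v i)
      have h2 : p.rho (k + 1) / 2 / p.rho k + 1 / 2 = (p.ell + 1) / 2 := by
        unfold Par.rho
        rw [pow_succ]
        have : ((p.ell : ℝ)) ^ k ≠ 0 := by positivity
        field_simp
      rw [h2] at h1
      exact h1
    show |p.rho k * ((p.rm k j x v i : ℤ) : ℝ)| ≤ _
    rw [abs_mul, abs_of_pos hrho]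
    apply mul_le_mul_of_nonneg_left _ hrho.le
    refine hrm.trans ?_
    nlinarith

/-- size of a jump -/
theorem jump_le (hp : p.Ok) (j : ℕ) (z : Nz p.d) (hz : p.Valid j z) (x v : V p.d) :
    ‖p.jump j z x v‖ ≤ p.sz z := by
  have hell := ell_ge p hp
  have hL : (1000 : ℝ) ≤ (p.L : ℝ) := by exact_mod_cast hp.hL
  have hs := sz_nonneg p z
  unfold Par.jump
  split_ifs with h0 h1 h2
  · rw [norm_zero]
    exact hs
  · unfold Par.sz
    rw [if_neg h0, if_pos h1]
  · unfold Par.sz
    rw [if_neg h0, if_neg h1]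
    have hk : z.lab - 1 = (z.lab - 2) + 1 := by omega
    rw [hk]
    set k := z.lab - 2 with hkdef
    have hrho : 0 < p.rho k := by
      unfold Par.rho
      positivity
    have hsg : ‖z.sg‖ = 1 := by
      unfold Nz.sg
      split_ifs
      · exact norm_one
      · rw [norm_neg, norm_one]
    rw [norm_smul, hsg, one_mul]
    refine (norm_add_le _ _).trans ?_
    have h3 : ‖p.rad k • z.u‖ ≤ p.rho k := by
      rw [norm_smul]
      have hr : 0 ≤ p.rad k := by
        unfold Par.rad
        positivity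
      rw [Real.norm_of_nonneg hr]
      have hu := hz.2.2.2.1
      calc p.rad k * ‖z.u‖ ≤ p.rho k * 1 :=
            mul_le_mul (rad_le p hp k) hu (norm_nonneg _) hrho.le
        _ = p.rho k := mul_one _
    have h4 := wst_le p hp k j (x - p.vs • z.y1) (v - p.vs • z.y2)
    have h5 : p.rho (k + 1) = p.rho k * p.ell := by
      unfold Par.rho
      rw [pow_succ]
    rw [h5]
    have h6 : p.rho k * (1000 / 999 * ((p.ell * p.L + 1) / 2)) + p.rho k ≤
        p.L * (p.rho k * p.ell) := by
      have h7 : (1000 : ℝ) / 999 * ((p.ell * p.L + 1) / 2) + 1 ≤ p.L * p.ell := by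
        nlinarith
      nlinarith
    linarith
  · rw [norm_zero]
    exact hs

private lemma run_succ_snd (om : ℕ → Nz p.d) (j : ℕ) :
    (p.run om (j + 1)).2 = (p.run om j).2 + p.jump j (om j) (p.run om (j + 1)).1 (p.run om j).2 :=
  rfl

private lemma run_succ_fst (om : ℕ → Nz p.d) (j : ℕ) :
    (p.run om (j + 1)).1 = (p.run om j).1 + p.h • (p.run om j).2 := rfl

/-- velocity change over the steps `a ≤ j < c` -/
theorem vel_le (hp : p.Ok) (om : ℕ → Nz p.d) (hv : ∀ j, p.Valid j (om j)) (a c : ℕ)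
    (hac : a ≤ c) : ‖(p.run om c).2 - (p.run om a).2‖ ≤ ∑ j ∈ Finset.Ico a c, p.sz (om j) := by
  induction c, hac using Nat.le_induction with
  | base => simp
  | succ c hac ih =>
    rw [Finset.sum_Ico_succ_top hac, run_succ_snd, add_sub_right_comm]
    exact (norm_add_le _ _).trans (add_le_add ih (jump_le p hp c (om c) (hv c) _ _))

/-- change of the extrapolated position in one step -/
theorem Pos_succ (om : ℕ → Nz p.d) (g j : ℕ) :
    p.Pos om g (j + 1) = p.Pos om g j - (p.h * ((j : ℝ) + 1 - g)) •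
      p.jump j (om j) (p.run om (j + 1)).1 (p.run om j).2 := by
  unfold Par.Pos
  rw [run_succ_snd]
  generalize p.jump j (om j) (p.run om (j + 1)).1 (p.run om j).2 = J
  rw [run_succ_fst]
  ext i
  simp only [Pi.sub_apply, Pi.add_apply, Pi.smul_apply, smul_eq_mul]
  push_cast
  ring

/-- unlisted steps move velocity and extrapolated position by at most the noise -/
theorem noise_le (hp : p.Ok) (om : ℕ → Nz p.d) (hv : ∀ j, p.Valid j (om j)) (m g a c : ℕ)
    (hga : g ≤ a) (hac : a ≤ c) (hcg : c ≤ g + p.tau m)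
    (hun : ∀ j ∈ Finset.Ico a c, p.lv (om j) ≤ m) :
    ‖(p.run om c).2 - (p.run om a).2‖ ≤ p.nse om m a c ∧
      ‖p.Pos om g c - p.Pos om g a‖ ≤ p.nse om m a c * (p.L : ℝ) ^ m := by
  have hnse : p.nse om m a c = ∑ j ∈ Finset.Ico a c, p.sz (om j) := by
    unfold Par.nse
    exact Finset.sum_congr rfl fun j hj => if_pos (hun j hj)
  refine ⟨by rw [hnse]; exact vel_le p hp om hv a c hac, ?_⟩
  rw [hnse]
  clear hnse hun
  induction c, hac using Nat.le_induction with
  | base => simp
  | succ c hac ih =>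
    have ih' := ih (by omega)
    rw [Finset.sum_Ico_succ_top hac, add_mul, Pos_succ, sub_right_comm]
    refine (norm_sub_le _ _).trans (add_le_add ih' ?_)
    rw [norm_smul]
    have h1 : (0 : ℝ) ≤ (c : ℝ) + 1 - g := by
      have : (g : ℝ) ≤ c := by exact_mod_cast hga.trans hac
      linarith
    have h2 : (c : ℝ) + 1 - g ≤ p.tau m := by
      have : ((c + 1 : ℕ) : ℝ) ≤ ((g + p.tau m : ℕ) : ℝ) := by exact_mod_cast hcg
      push_cast at this
      linarith
    have h3 : ‖p.h * ((c : ℝ) + 1 - g)‖ ≤ (p.L : ℝ) ^ m := by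
      rw [Real.norm_of_nonneg (mul_nonneg (h_nonneg p) h1), ← h_tau p hp m]
      exact mul_le_mul_of_nonneg_left h2 (h_nonneg p)
    rw [mul_comm]
    exact mul_le_mul (jump_le p hp c (om c) (hv c) _ _) h3 (norm_nonneg _) (sz_nonneg p _)

end KDB.I.D2
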